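import Pool.Agent.T2H17.ErdosEmb

set_option autoImplicit false

open Filter Topology Set

namespace Pool.Agent.T2H17

section shift

variable {X : Type} [TopologicalSpace X]

/-- The inclusion of a homeomorphism group in the space of continuous maps. -/
def iot {M : Type} [TopologicalSpace M] (g : M ≃ₜ M) : C(M, M) := ContinuousMap.mk (⇑g) g.continuous

/-- The compact open topology on the homeomorphism group. -/
@[reducible]
def topG (M : Type) [TopologicalSpace M] : TopologicalSpace (M ≃ₜ M) :=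
  TopologicalSpace.induced (fun g : M ≃ₜ M => ContinuousMap.mk (⇑g) g.continuous) inferInstance

/-- shift up -/
def sh (N : ℕ) (p : ℕ × X) : ℕ × X := (p.1 + N, p.2)

/-- shift down -/
def un (N : ℕ) (p : ℕ × X) : ℕ × X := (p.1 - N, p.2)

lemma sh_cont (N : ℕ) : Continuous (sh (X := X) N) :=
  ((continuous_of_discreteTopology (f := fun i : ℕ => i + N)).comp continuous_fst).prodMk
    continuous_snd

lemma un_cont (N : ℕ) : Continuous (un (X := X) N) :=
  ((continuous_of_discreteTopology (f := fun i : ℕ => i - N)).comp continuous_fst).prodMk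
    continuous_snd

omit [TopologicalSpace X] in
lemma un_sh (N : ℕ) (p : ℕ × X) : un N (sh N p) = p := by
  simp [un, sh]

omit [TopologicalSpace X] in
lemma sh_un (N : ℕ) (p : ℕ × X) (h : ¬ p.1 < N) : sh N (un N p) = p := by
  ext
  · simp only [un, sh]; omega
  · simp [un, sh]

omit [TopologicalSpace X] in
lemma sh_not_lt (N : ℕ) (p : ℕ × X) : ¬ (sh N p).1 < N := by
  simp [sh]

/-- The map acting as `h` above level `N` and as the identity below. -/
def fn (N : ℕ) (h : ℕ × X → ℕ × X) (p : ℕ × X) : ℕ × X :=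
  if p.1 < N then p else sh N (h (un N p))

omit [TopologicalSpace X] in
lemma fn_fn (N : ℕ) (h h' : ℕ × X → ℕ × X) (hh : ∀ p, h (h' p) = p) (p : ℕ × X) :
    fn N h (fn N h' p) = p := by
  by_cases hp : p.1 < N
  · simp [fn, hp]
  · have h1 : fn N h' p = sh N (h' (un N p)) := by simp [fn, hp]
    rw [h1, fn, if_neg (sh_not_lt N _), un_sh, hh, sh_un N p hp]

lemma isClopen_lt (N : ℕ) {Y : Type*} [TopologicalSpace Y] :
    IsClopen {q : Y × (ℕ × X) | q.2.1 < N} := by
  have : {q : Y × (ℕ × X) | q.2.1 < N} = (fun q : Y × (ℕ × X) => q.2.1) ⁻¹' {i | i < N} := rfl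
  rw [this]
  exact (isClopen_discrete _).preimage (continuous_fst.comp continuous_snd)

lemma fn_cont (N : ℕ) (h : ℕ × X → ℕ × X) (hh : Continuous h) : Continuous (fn N h) := by
  unfold fn
  refine Continuous.if ?_ continuous_id ((sh_cont N).comp (hh.comp (un_cont N)))
  intro a ha
  have hc : IsClopen {p : ℕ × X | p.1 < N} := (isClopen_discrete {i | i < N}).preimage continuous_fst
  rw [hc.frontier_eq] at ha
  exact absurd ha (Set.notMem_empty _)

/-- The self-map of the homeomorphism group. -/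
def eN (N : ℕ) (h : (ℕ × X) ≃ₜ (ℕ × X)) : (ℕ × X) ≃ₜ (ℕ × X) where
  toFun := fn N h
  invFun := fn N h.symm
  left_inv := fn_fn N _ _ h.symm_apply_apply
  right_inv := fn_fn N _ _ h.apply_symm_apply
  continuous_toFun := fn_cont N _ h.continuous
  continuous_invFun := fn_cont N _ h.symm.continuous

lemma eN_apply (N : ℕ) (h : (ℕ × X) ≃ₜ (ℕ × X)) (p : ℕ × X) : eN N h p = fn N h p := rfl

lemma fix_not_lt (N : ℕ) (h : (ℕ × X) ≃ₜ (ℕ × X)) (hfix : ∀ p : ℕ × X, p.1 < N → h p = p)
    (p : ℕ × X) (hp : ¬ p.1 < N) : ¬ (h p).1 < N := by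
  intro h1
  have h2 := hfix _ h1
  have h3 := h.injective h2
  rw [h3] at h1
  exact hp h1

/-- The inverse construction. -/
def rN (N : ℕ) (h : (ℕ × X) ≃ₜ (ℕ × X)) (hfix : ∀ p : ℕ × X, p.1 < N → h p = p) :
    (ℕ × X) ≃ₜ (ℕ × X) where
  toFun := fun p => un N (h (sh N p))
  invFun := fun p => un N (h.symm (sh N p))
  left_inv := by
    intro p
    show un N (h.symm (sh N (un N (h (sh N p))))) = p
    rw [sh_un N _ (fix_not_lt N h hfix _ (sh_not_lt N p)), h.symm_apply_apply, un_sh]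
  right_inv := by
    intro p
    have hfix' : ∀ p : ℕ × X, p.1 < N → h.symm p = p := fun p hp => by
      rw [h.symm_apply_eq, hfix p hp]
    show un N (h (sh N (un N (h.symm (sh N p))))) = p
    rw [sh_un N _ (fix_not_lt N h.symm hfix' _ (sh_not_lt N p)), h.apply_symm_apply, un_sh]
  continuous_toFun := (un_cont N).comp (h.continuous.comp (sh_cont N))
  continuous_invFun := (un_cont N).comp (h.symm.continuous.comp (sh_cont N))

lemma range_eN (N : ℕ) :
    range (eN (X := X) N) = {h | ∀ p : ℕ × X, p.1 < N → h p = p} := by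
  ext h
  constructor
  · rintro ⟨h', rfl⟩ p hp
    rw [eN_apply, fn, if_pos hp]
  · intro hfix
    refine ⟨rN N h hfix, ?_⟩
    ext1 p
    rw [eN_apply, fn]
    split_ifs with hp
    · exact (hfix p hp).symm
    · show sh N (un N (h (sh N (un N p)))) = h p
      rw [sh_un N p hp, sh_un N _ (fix_not_lt N h hfix p hp)]

theorem eN_closedEmbedding [T2Space X] [LocallyCompactSpace X] (N : ℕ) :
    @IsClosedEmbedding _ _ (topG (ℕ × X)) (topG (ℕ × X)) (eN (X := X) N) := by
  let _inst : TopologicalSpace ((ℕ × X) ≃ₜ (ℕ × X)) := topG (ℕ × X)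
  have hio : IsInducing (iot (M := ℕ × X)) := ⟨rfl⟩
  have heval : Continuous (fun q : ((ℕ × X) ≃ₜ (ℕ × X)) × (ℕ × X) => q.1 q.2) := by
    have : (fun q : ((ℕ × X) ≃ₜ (ℕ × X)) × (ℕ × X) => q.1 q.2) =
        fun q : ((ℕ × X) ≃ₜ (ℕ × X)) × (ℕ × X) => (iot q.1) q.2 := rfl
    rw [this]
    exact (hio.continuous.comp continuous_fst).eval continuous_snd
  have hcont : Continuous (eN (X := X) N) := by
    rw [hio.continuous_iff]
    refine ContinuousMap.continuous_of_continuous_uncurry _ ?_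
    show Continuous (fun q : ((ℕ × X) ≃ₜ (ℕ × X)) × (ℕ × X) => fn N q.1 q.2)
    unfold fn
    refine Continuous.if ?_ continuous_snd ((sh_cont N).comp
      (heval.comp (continuous_fst.prodMk ((un_cont N).comp continuous_snd))))
    intro a ha
    rw [(isClopen_lt N).frontier_eq] at ha
    exact absurd ha (Set.notMem_empty _)
  have hind : IsInducing (eN (X := X) N) := by
    let g : ((ℕ × X) ≃ₜ (ℕ × X)) → C(ℕ × X, ℕ × X) := fun h =>
      (ContinuousMap.mk (un N) (un_cont N)).comp ((iot h).comp (ContinuousMap.mk (sh N) (sh_cont N)))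
    have hg : Continuous g :=
      (ContinuousMap.continuous_postcomp _).comp ((ContinuousMap.continuous_precomp _).comp
        hio.continuous)
    refine IsInducing.of_comp hcont hg ?_
    have : g ∘ eN (X := X) N = iot := by
      funext h
      ext1 p
      show un N (fn N h (sh N p)) = h p
      rw [fn, if_neg (sh_not_lt N _), un_sh, un_sh]
    rw [this]
    exact hio
  have hinj : Function.Injective (eN (X := X) N) := by
    intro h h' hh
    ext1 p
    have h1 : eN N h (sh N p) = eN N h' (sh N p) := by rw [hh]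
    rw [eN_apply, eN_apply, fn, fn, if_neg (sh_not_lt N _), if_neg (sh_not_lt N _), un_sh] at h1
    have h2 := congrArg (un N) h1
    rwa [un_sh, un_sh] at h2
  refine ⟨⟨hind, hinj⟩, ?_⟩
  rw [range_eN]
  have : {h : (ℕ × X) ≃ₜ (ℕ × X) | ∀ p : ℕ × X, p.1 < N → h p = p} =
      ⋂ p : ℕ × X, ⋂ _ : p.1 < N, {h | h p = p} := by
    ext h
    simp
  rw [this]
  refine isClosed_iInter fun p => isClosed_iInter fun _ => ?_
  exact isClosed_eq (heval.comp (continuous_id.prodMk continuous_const)) continuous_const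

theorem eN_small (U : Set ((ℕ × X) ≃ₜ (ℕ × X)))
    (hU : U ∈ @nhds _ (topG (ℕ × X)) (Homeomorph.refl (ℕ × X))) :
    ∃ N : ℕ, ∀ h, eN (X := X) N h ∈ U := by
  let _inst : TopologicalSpace ((ℕ × X) ≃ₜ (ℕ × X)) := topG (ℕ × X)
  have hio : IsInducing (iot (M := ℕ × X)) := ⟨rfl⟩
  let l : Filter (ℕ × ((ℕ × X) ≃ₜ (ℕ × X))) := comap Prod.fst atTop
  have hev : ∀ N0 : ℕ, ∀ᶠ q in l, N0 ≤ q.1 := fun N0 => by
    have := (eventually_ge_atTop N0).comap (Prod.fst : ℕ × ((ℕ × X) ≃ₜ (ℕ × X)) → ℕ)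
    exact this
  have h1 : Tendsto (fun q : ℕ × ((ℕ × X) ≃ₜ (ℕ × X)) => eN q.1 q.2) l
      (𝓝 (Homeomorph.refl (ℕ × X))) := by
    rw [hio.tendsto_nhds_iff]
    rw [ContinuousMap.tendsto_compactOpen_iff_forall]
    intro K hK
    have hK1 : IsCompact (Prod.fst '' K) := hK.image continuous_fst
    obtain ⟨N0, hN0⟩ := (hK1.finite_of_discrete).bddAbove
    refine Tendsto.congr' ?_ tendsto_const_nhds
    filter_upwards [hev (N0 + 1)] with q hq
    ext1 ⟨p, hp⟩
    show p = fn q.1 q.2 p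
    have : p.1 ≤ N0 := hN0 ⟨p, hp, rfl⟩
    rw [fn, if_pos (by omega)]
  have h2 := h1 hU
  rw [mem_map, mem_comap] at h2
  obtain ⟨t, ht, htU⟩ := h2
  obtain ⟨N, hN⟩ := mem_atTop_sets.1 ht
  exact ⟨N, fun h => htU (show (N, h).1 ∈ t from hN N le_rfl)⟩

/-- The homeomorphism group of a countable sum of copies of a locally compact space is not
homeomorphic to complete Erdos space. -/
theorem not_homeo [T2Space X] [LocallyCompactSpace X]
    (Φ : @Homeomorph ((ℕ × X) ≃ₜ (ℕ × X)) Er (topG (ℕ × X)) inferInstance) : False := by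
  let _inst : TopologicalSpace ((ℕ × X) ≃ₜ (ℕ × X)) := topG (ℕ × X)
  let Ψ : ((ℕ × X) ≃ₜ (ℕ × X)) ≃ₜ Er := Φ
  have hU : Ψ ⁻¹' (Metric.ball (Ψ (Homeomorph.refl (ℕ × X))) 1) ∈ 𝓝 (Homeomorph.refl (ℕ × X)) :=
    Ψ.continuous.continuousAt.preimage_mem_nhds (Metric.ball_mem_nhds _ one_pos)
  obtain ⟨N, hN⟩ := eN_small _ hU
  have hj : IsClosedEmbedding (fun y : Er => Ψ (eN N (Ψ.symm y))) :=
    Ψ.isClosedEmbedding.comp ((eN_closedEmbedding N).comp Ψ.symm.isClosedEmbedding)
  refine no_bounded_closed_embedding _ hj (‖((Ψ (Homeomorph.refl (ℕ × X)) : Er) : L2)‖ + 1) ?_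
  intro y
  have h1 := hN (Ψ.symm y)
  rw [mem_preimage, Metric.mem_ball, Subtype.dist_eq, dist_eq_norm] at h1
  set a : L2 := ((Ψ (eN N (Ψ.symm y)) : Er) : L2)
  set b : L2 := ((Ψ (Homeomorph.refl (ℕ × X)) : Er) : L2)
  have h2 : ‖a‖ ≤ ‖a - b‖ + ‖b‖ := by
    have := norm_add_le (a - b) b
    simpa using this
  linarith

end shift

end Pool.Agent.T2H17
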