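import Mathlib

set_option autoImplicit false

open Filter Topology Set

namespace Pool.Agent.T2H17

/-- The Hilbert space of square summable real sequences. -/
abbrev L2 : Type := lp (fun _ : ℕ => ℝ) 2

/-- Complete Erdos space, as a subset of `L2`. -/
def Er : Set L2 := {x | ∀ i : ℕ, (x : ℕ → ℝ) i = 0 ∨ ∃ k : ℕ, 0 < k ∧ (x : ℕ → ℝ) i = 1 / (k : ℝ)}

/-- The set of admissible coordinates. -/
def T : Set ℝ := {t | t = 0 ∨ ∃ k : ℕ, 0 < k ∧ t = 1 / (k : ℝ)}

lemma T_nonneg {t : ℝ} (h : t ∈ T) : 0 ≤ t := by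
  rcases h with h | ⟨k, hk, h⟩
  · exact h.ge
  · rw [h]; positivity

lemma T_rat {t : ℝ} (h : t ∈ T) : ∃ q : ℚ, (q : ℝ) = t := by
  rcases h with h | ⟨k, hk, h⟩
  · exact ⟨0, by simp [h]⟩
  · exact ⟨1 / (k : ℚ), by simp [h]⟩

lemma T_closed : IsClosed T := by
  have h1 : IsCompact (insert (0 : ℝ) (range (fun k : ℕ => 1 / ((k : ℝ) + 1)))) :=
    tendsto_one_div_add_atTop_nhds_zero_nat.isCompact_insert_range
  have h2 : T = insert (0 : ℝ) (range (fun k : ℕ => 1 / ((k : ℝ) + 1))) := by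
    ext t
    constructor
    · rintro (h | ⟨k, hk, h⟩)
      · exact Or.inl h
      · right
        refine ⟨k - 1, ?_⟩
        have : ((k - 1 : ℕ) : ℝ) = (k : ℝ) - 1 := by
          rw [Nat.cast_sub hk]; simp
        simp only [this, h]
        congr 1
        ring
    · rintro (h | ⟨k, h⟩)
      · exact Or.inl h
      · right
        refine ⟨k + 1, Nat.succ_pos _, ?_⟩
        rw [← h]; push_cast; ring
  rw [h2]
  exact h1.isClosed

lemma continuous_coord (i : ℕ) : Continuous (fun x : L2 => (x : ℕ → ℝ) i) := by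
  have : (fun x : L2 => (x : ℕ → ℝ) i) = fun x : L2 => inner ℝ (lp.single 2 i (1 : ℝ)) (x) := by
    funext x
    rw [lp.inner_single_left]
    simp
  rw [this]
  exact continuous_const.inner continuous_id

lemma Er_closed : IsClosed Er := by
  have : Er = ⋂ i : ℕ, (fun x : L2 => (x : ℕ → ℝ) i) ⁻¹' T := by
    ext x
    simp [Er, T]
  rw [this]
  exact isClosed_iInter fun i => T_closed.preimage (continuous_coord i)

lemma Er_coord {x : L2} (hx : x ∈ Er) (i : ℕ) : (x : ℕ → ℝ) i ∈ T := hx i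

/-- For coordinatewise comparable nonnegative vectors. -/
lemma norm_sub_sq_le {x y : L2} (hx : ∀ i, 0 ≤ x i) (hxy : ∀ i, x i ≤ y i) :
    ‖y - x‖ ^ 2 ≤ ‖y‖ ^ 2 - ‖x‖ ^ 2 := by
  have h1 : ‖y - x‖ ^ 2 = ‖y‖ ^ 2 - 2 * inner ℝ (y) (x) + ‖x‖ ^ 2 := norm_sub_sq_real y x
  have h2 : 0 ≤ inner ℝ (y - x) (x) := by
    refine (lp.hasSum_inner (𝕜 := ℝ) (y - x) x).nonneg ?_
    intro i
    have : (inner ℝ ((y - x : L2) i) (x i)) = x i * (y i - x i) := by
      simp
    rw [this]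
    exact mul_nonneg (hx i) (sub_nonneg.2 (hxy i))
  have h3 : inner ℝ (y - x) (x) = inner ℝ (y) (x) - ‖x‖ ^ 2 := by
    rw [inner_sub_left, real_inner_self_eq_norm_sq]
  linarith

lemma coord_tendsto_zero (x : L2) : Tendsto (fun i => x i) atTop (𝓝 0) := by
  have h1 : HasSum (fun i => lp.single 2 i (x i)) x := lp.hasSum_single (by norm_num) x
  have h2 := h1.summable.tendsto_atTop_zero
  have h3 := h2.norm
  have h4 : (fun i => ‖lp.single (E := fun _ : ℕ => ℝ) 2 i (x i)‖) = fun i => ‖x i‖ := by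
    funext i
    exact lp.norm_single (E := fun _ : ℕ => ℝ) (p := 2) (by norm_num) i (x i)
  rw [h4, norm_zero] at h3
  exact tendsto_zero_iff_norm_tendsto_zero.2 h3

/-- Erdos' theorem: complete Erdos space has no nonempty bounded clopen subset. -/
theorem no_bounded_clopen (A : Set Er) (hA : IsClopen A) (hne : A.Nonempty) (R : ℝ)
    (hR : ∀ x ∈ A, ‖(x : L2)‖ ≤ R) : False := by
  classical
  let B : Set (ℕ → ℝ) := (fun x : Er => ((x : L2) : ℕ → ℝ)) '' A
  obtain ⟨a, ha⟩ := hne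
  have hR0 : 0 ≤ R := le_trans (norm_nonneg _) (hR a ha)
  have hchain : ∀ c ⊆ B, IsChain (· ≤ ·) c → ∀ y ∈ c, ∃ ub ∈ B, ∀ z ∈ c, z ≤ ub := by
    intro c hcB hc y hy
    let D : Set L2 := {x : L2 | (x : ℕ → ℝ) ∈ c}
    have hDA : ∀ x ∈ D, ∃ h : x ∈ Er, (⟨x, h⟩ : Er) ∈ A := by
      intro x hx
      obtain ⟨w, hwA, hw⟩ := hcB hx
      have : (w : L2) = x := lp.ext hw
      subst this
      exact ⟨w.2, hwA⟩
    have hDne : ∃ x, x ∈ D := by
      obtain ⟨w, hwA, hw⟩ := hcB hy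
      exact ⟨w, by show ((w : L2) : ℕ → ℝ) ∈ c; rw [show ((w : L2) : ℕ → ℝ) = y from hw]; exact hy⟩
    have hDR : ∀ x ∈ D, ‖x‖ ≤ R := fun x hx => by
      obtain ⟨h1, h2⟩ := hDA x hx
      exact hR _ h2
    have hD0 : ∀ x ∈ D, ∀ i, 0 ≤ x i := fun x hx i => by
      obtain ⟨h1, h2⟩ := hDA x hx
      exact T_nonneg (h1 i)
    let s : ℝ := sSup ((fun x : L2 => ‖x‖ ^ 2) '' D)
    have hbdd : BddAbove ((fun x : L2 => ‖x‖ ^ 2) '' D) := by
      refine ⟨R ^ 2, ?_⟩
      rintro _ ⟨x, hx, rfl⟩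
      exact pow_le_pow_left₀ (norm_nonneg _) (hDR x hx) 2
    have hs : ∀ x ∈ D, ‖x‖ ^ 2 ≤ s := fun x hx => le_csSup hbdd ⟨x, hx, rfl⟩
    -- comparison
    have hcomp : ∀ x ∈ D, ∀ x' ∈ D, (∀ i, x i ≤ x' i) ∨ (∀ i, x' i ≤ x i) := by
      intro x hx x' hx'
      exact hc.total hx hx'
    -- the filter
    let F : Filter L2 := ⨅ x : D, 𝓟 {z : L2 | z ∈ D ∧ ∀ i, (x : L2) i ≤ z i}
    have hdir : Directed (· ≥ ·) (fun x : D => 𝓟 {z : L2 | z ∈ D ∧ ∀ i, (x : L2) i ≤ z i}) := by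
      intro x x'
      rcases hcomp x x.2 x' x'.2 with h | h
      · refine ⟨x', ?_, ?_⟩
        · simp only [ge_iff_le, le_principal_iff, mem_principal]
          intro z hz
          exact ⟨hz.1, fun i => (h i).trans (hz.2 i)⟩
        · simp
      · refine ⟨x, ?_, ?_⟩
        · simp
        · simp only [ge_iff_le, le_principal_iff, mem_principal]
          intro z hz
          exact ⟨hz.1, fun i => (h i).trans (hz.2 i)⟩
    have hDne' : Nonempty D := by
      obtain ⟨x, hx⟩ := hDne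
      exact ⟨⟨x, hx⟩⟩
    have hFne : NeBot F := by
      refine iInf_neBot_of_directed hdir ?_
      intro x
      rw [principal_neBot_iff]
      exact ⟨x, x.2, fun i => le_rfl⟩
    have hFmem : ∀ x ∈ D, {z : L2 | z ∈ D ∧ ∀ i, (x : L2) i ≤ z i} ∈ F := by
      intro x hx
      exact mem_iInf_of_mem (⟨x, hx⟩ : D) (mem_principal_self _)
    have hCauchy : Cauchy F := by
      rw [Metric.cauchy_iff]
      refine ⟨hFne, ?_⟩
      intro ε hε
      have hlt : s - ε ^ 2 / 4 < s := by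
        have : 0 < ε ^ 2 / 4 := by positivity
        linarith
      obtain ⟨_, ⟨x, hx, rfl⟩, hxs⟩ := exists_lt_of_lt_csSup
        (s := (fun x : L2 => ‖x‖ ^ 2) '' D) (by
          obtain ⟨x, hx⟩ := hDne
          exact ⟨_, x, hx, rfl⟩) hlt
      refine ⟨_, hFmem x hx, ?_⟩
      have key : ∀ z ∈ {z : L2 | z ∈ D ∧ ∀ i, (x : L2) i ≤ z i}, ‖z - x‖ < ε / 2 := by
        intro z hz
        have h1 := norm_sub_sq_le (hD0 x hx) hz.2
        have h2 := hs z hz.1
        have h3 : ‖z - x‖ ^ 2 < (ε / 2) ^ 2 := by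
          have : (ε / 2) ^ 2 = ε ^ 2 / 4 := by ring
          rw [this]
          simp only at hxs
          linarith
        exact lt_of_pow_lt_pow_left₀ 2 (by positivity) h3
      intro z hz z' hz'
      have h1 := key z hz
      have h2 := key z' hz'
      calc dist z z' ≤ dist z x + dist x z' := dist_triangle _ _ _
        _ = ‖z - x‖ + ‖z' - x‖ := by rw [dist_eq_norm, dist_comm x z', dist_eq_norm]
        _ < ε := by linarith
    obtain ⟨l, hl⟩ := cauchy_iff_exists_le_nhds.1 hCauchy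
    have hDF : D ∈ F := by
      obtain ⟨x, hx⟩ := hDne
      exact mem_of_superset (hFmem x hx) (fun z hz => hz.1)
    -- the limit lies in `A`
    have hclos : IsClosed ((fun x : Er => (x : L2)) '' A) := by
      have := Er_closed.isClosedEmbedding_subtypeVal
      exact this.isClosedMap _ hA.1
    have hDsub : D ⊆ ((fun x : Er => (x : L2)) '' A) := by
      intro x hx
      obtain ⟨h1, h2⟩ := hDA x hx
      exact ⟨⟨x, h1⟩, h2, rfl⟩
    have hlA : l ∈ ((fun x : Er => (x : L2)) '' A) := by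
      refine hclos.mem_of_tendsto (f := id) (b := F) hl ?_
      exact mem_of_superset hDF hDsub
    obtain ⟨w, hwA, hw⟩ := hlA
    refine ⟨((w : L2) : ℕ → ℝ), ⟨w, hwA, rfl⟩, ?_⟩
    intro z hz
    obtain ⟨z', hz'A, hz'⟩ := hcB hz
    have hz'D : (z' : L2) ∈ D := by
      show ((z' : L2) : ℕ → ℝ) ∈ c
      rw [show ((z' : L2) : ℕ → ℝ) = z from hz']
      exact hz
    intro i
    have h1 : Tendsto (fun v : L2 => v i) F (𝓝 (l i)) := ((continuous_coord i).tendsto l).comp hl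
    have h2 : ∀ᶠ v in F, (z' : L2) i ≤ v i := mem_of_superset (hFmem _ hz'D) (fun v hv => hv.2 i)
    have h3 : (z' : L2) i ≤ l i := ge_of_tendsto h1 h2
    have h4 : z i = (z' : L2) i := by
      have := congrFun hz' i
      exact this.symm
    have h5 : (w : L2) i = l i := by rw [show (w : L2) = l from hw]
    rw [h4, h5]
    exact h3
  obtain ⟨m, hm1, hm2⟩ := zorn_le_nonempty₀ B hchain _ ⟨a, ha, rfl⟩
  obtain ⟨x, hxA, hx⟩ := hm2.prop
  -- `x` is interior to `A`
  have hopen : ∀ᶠ z in 𝓝 x, z ∈ A := hA.2.mem_nhds hxA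
  rw [Metric.eventually_nhds_iff] at hopen
  obtain ⟨ε, hε, hεA⟩ := hopen
  obtain ⟨k, hk⟩ := exists_nat_gt (1 / ε)
  have hk0 : 0 < (k : ℝ) := lt_trans (by positivity) hk
  have hkn : 0 < k := by exact_mod_cast hk0
  have hkε : 1 / (k : ℝ) < ε := by
    rw [div_lt_iff₀ hk0]
    rw [div_lt_iff₀ hε] at hk
    linarith
  have hev : ∀ᶠ i in atTop, (x : L2) i < 1 / (k : ℝ) :=
    (coord_tendsto_zero (x : L2)).eventually_lt_const (by positivity)
  obtain ⟨i, hi⟩ := hev.exists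
  have hxi : 0 ≤ (x : L2) i := T_nonneg (x.2 i)
  let y : L2 := (x : L2) + lp.single 2 i (1 / (k : ℝ) - (x : L2) i)
  have hyi : y i = 1 / (k : ℝ) := by
    show ((x : L2) + lp.single 2 i (1 / (k : ℝ) - (x : L2) i) : L2) i = _
    rw [lp.coeFn_add, Pi.add_apply, lp.single_apply_self]
    ring
  have hyj : ∀ j, j ≠ i → y j = (x : L2) j := by
    intro j hj
    show ((x : L2) + lp.single 2 i (1 / (k : ℝ) - (x : L2) i) : L2) j = _
    rw [lp.coeFn_add, Pi.add_apply, lp.single_apply_ne _ _ _ hj]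
    ring
  have hyE : y ∈ Er := by
    intro j
    by_cases hj : j = i
    · subst hj
      right
      exact ⟨k, hkn, hyi⟩
    · rw [hyj j hj]
      exact x.2 j
  have hdist : dist (⟨y, hyE⟩ : Er) x < ε := by
    rw [Subtype.dist_eq, dist_eq_norm]
    have : y - (x : L2) = lp.single 2 i (1 / (k : ℝ) - (x : L2) i) := by
      show (x : L2) + lp.single 2 i (1 / (k : ℝ) - (x : L2) i) - (x : L2) = _
      abel
    show ‖y - (x : L2)‖ < ε
    rw [this, lp.norm_single (by norm_num), Real.norm_eq_abs, abs_of_nonneg (by linarith)]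
    linarith
  have hyA := hεA hdist
  have hle : ((x : L2) : ℕ → ℝ) ≤ (y : ℕ → ℝ) := by
    intro j
    by_cases hj : j = i
    · subst hj
      rw [hyi]
      exact hi.le
    · rw [hyj j hj]
  have hmax : m ≤ (y : ℕ → ℝ) := by
    rw [← hx]; exact hle
  have h6 : (y : ℕ → ℝ) ≤ m := hm2.le_of_ge ⟨⟨y, hyE⟩, hyA, rfl⟩ hmax
  have h7 := h6 i
  rw [← hx] at h7
  have h8 : y i ≤ (x : L2) i := h7
  rw [hyi] at h8
  linarith

end Pool.Agent.T2H17
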