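import Pool.Agent.T2H17.Erdos

set_option autoImplicit false

open Filter Topology Set

namespace Pool.Agent.T2H17

/-- The `n`-th truncation. -/
noncomputable def trunc (x : L2) (n : ℕ) : L2 := ∑ i ∈ Finset.range n, lp.single 2 i (x i)

lemma trunc_tendsto (x : L2) : Tendsto (trunc x) atTop (𝓝 x) :=
  (lp.hasSum_single (E := fun _ : ℕ => ℝ) (p := 2) (by norm_num) x).tendsto_sum_nat

lemma inner_trunc (y x : L2) (n : ℕ) :
    inner ℝ y (trunc x n) = ∑ i ∈ Finset.range n, x i * y i := by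
  unfold trunc
  rw [inner_sum]
  refine Finset.sum_congr rfl fun i _ => ?_
  rw [lp.inner_single_right]
  simp

lemma inner_trunc_rat {y x : L2} (hy : y ∈ Er) (hx : x ∈ Er) (n : ℕ) :
    ∃ q : ℚ, (q : ℝ) = inner ℝ y (trunc x n) := by
  rw [inner_trunc]
  choose f hf using fun i => T_rat (hy i)
  choose g hg using fun i => T_rat (hx i)
  refine ⟨∑ i ∈ Finset.range n, g i * f i, ?_⟩
  push_cast
  refine Finset.sum_congr rfl fun i _ => ?_
  rw [hf i, hg i]

/-- The slice argument: every nonempty clopen set contains a nonempty clopen set with small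
image under a bounded continuous map into `Er`. -/
lemma slice {Y : Type*} [TopologicalSpace Y] (j : Y → L2) (hj : Continuous j)
    (hE : ∀ y, j y ∈ Er) (R : ℝ) (hR : ∀ y, ‖j y‖ ≤ R) (W : Set Y) (hW : IsClopen W)
    (hne : W.Nonempty) (ε : ℝ) (hε : 0 < ε) :
    ∃ W' : Set Y, W' ⊆ W ∧ IsClopen W' ∧ W'.Nonempty ∧
      ∃ p : L2, ∀ y ∈ W', ‖j y - p‖ ≤ ε := by
  let s : ℝ := sSup ((fun y : Y => ‖j y‖ ^ 2) '' W)
  have hbdd : BddAbove ((fun y : Y => ‖j y‖ ^ 2) '' W) := by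
    refine ⟨R ^ 2, ?_⟩
    rintro _ ⟨x, hx, rfl⟩
    exact pow_le_pow_left₀ (norm_nonneg _) (hR x) 2
  have hs : ∀ y ∈ W, ‖j y‖ ^ 2 ≤ s := fun y hy => le_csSup hbdd ⟨y, hy, rfl⟩
  obtain ⟨δ, hδ, hδε⟩ : ∃ δ : ℝ, 0 < δ ∧ 3 * δ ≤ ε ^ 2 := ⟨ε ^ 2 / 3, by positivity, by linarith⟩
  have hlt : s - δ < s := by linarith
  obtain ⟨_, ⟨x, hx, rfl⟩, hxs⟩ := exists_lt_of_lt_csSup
    (s := (fun y : Y => ‖j y‖ ^ 2) '' W) (by
      obtain ⟨x, hx⟩ := hne
      exact ⟨_, x, hx, rfl⟩) hlt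
  simp only at hxs
  have h1 : Tendsto (fun n => inner ℝ (j x) (trunc (j x) n)) atTop (𝓝 (inner ℝ (j x) (j x))) :=
    tendsto_const_nhds.inner (trunc_tendsto (j x))
  rw [real_inner_self_eq_norm_sq] at h1
  have h2 : Tendsto (fun n => ‖trunc (j x) n‖ ^ 2) atTop (𝓝 (‖j x‖ ^ 2)) :=
    ((trunc_tendsto (j x)).norm).pow 2
  have h3 : ∀ᶠ n in atTop, s - δ < inner ℝ (j x) (trunc (j x) n) := h1.eventually_const_lt hxs
  have h4 : ∀ᶠ n in atTop, ‖trunc (j x) n‖ ^ 2 < s + δ :=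
    h2.eventually_lt_const (lt_of_le_of_lt (hs x hx) (by linarith))
  obtain ⟨n, hn3, hn4⟩ := (h3.and h4).exists
  obtain ⟨c, hc, hc1, hc2⟩ := exists_irrational_btwn hn3
  set p : L2 := trunc (j x) n with hp
  have hcont : Continuous (fun y : Y => inner ℝ (j y) p) := hj.inner continuous_const
  have hclopen : IsClopen {y : Y | c < inner ℝ (j y) p} := by
    constructor
    · have : {y : Y | c < inner ℝ (j y) p} = {y : Y | c ≤ inner ℝ (j y) p} := by
        ext y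
        simp only [Set.mem_ofPred_eq]
        refine ⟨le_of_lt, fun h => lt_of_le_of_ne h ?_⟩
        intro h'
        obtain ⟨q, hq⟩ := inner_trunc_rat (hE y) (hE x) n
        exact hc ⟨q, by rw [hq, h']⟩
      rw [this]
      exact isClosed_le continuous_const hcont
    · exact isOpen_lt continuous_const hcont
  refine ⟨W ∩ {y : Y | c < inner ℝ (j y) p}, inter_subset_left, hW.inter hclopen, ⟨x, hx, hc2⟩,
    p, ?_⟩
  rintro y ⟨hyW, hy⟩
  simp only [Set.mem_ofPred_eq] at hy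
  have h5 : ‖j y - p‖ ^ 2 = ‖j y‖ ^ 2 - 2 * inner ℝ (j y) p + ‖p‖ ^ 2 := norm_sub_sq_real _ _
  have h6 := hs y hyW
  have h7 : ‖j y - p‖ ^ 2 ≤ ε ^ 2 := by linarith
  exact le_of_sq_le_sq h7 hε.le

/-- Complete Erdos space admits no closed embedding into a bounded subset of itself. -/
theorem no_bounded_closed_embedding (j : Er → Er) (hj : IsClosedEmbedding j) (R : ℝ)
    (hR : ∀ y, ‖(j y : L2)‖ ≤ R) : False := by
  let J : Er → L2 := fun y => (j y : L2)
  have hJc : Continuous J := continuous_subtype_val.comp hj.continuous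
  have hJ : IsClosedEmbedding J := Er_closed.isClosedEmbedding_subtypeVal.comp hj
  -- the sequence of clopen sets
  let St : Type := {W : Set Er // IsClopen W ∧ W.Nonempty}
  have step : ∀ (m : ℕ) (W : St), ∃ W' : St, W'.1 ⊆ W.1 ∧
      ∃ p : L2, ∀ y ∈ W'.1, ‖J y - p‖ ≤ 1 / ((m : ℝ) + 1) := by
    intro m W
    obtain ⟨W', h1, h2, h3, h4⟩ := slice J hJc (fun y => (j y).2) R hR W.1 W.2.1 W.2.2
      (1 / ((m : ℝ) + 1)) (by positivity)
    exact ⟨⟨W', h2, h3⟩, h1, h4⟩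
  choose f hf1 hf2 using step
  have hEne : (univ : Set Er).Nonempty := ⟨⟨0, fun i => Or.inl (by simp)⟩, mem_univ _⟩
  let W0 : St := ⟨univ, isClopen_univ, hEne⟩
  let Ws : ℕ → St := fun n => Nat.rec W0 (fun m W => f m W) n
  have hWs : ∀ m, Ws (m + 1) = f m (Ws m) := fun m => rfl
  have hanti : Antitone (fun n => (Ws n).1) := by
    refine antitone_nat_of_succ_le fun m => ?_
    show (Ws (m + 1)).1 ⊆ (Ws m).1
    rw [hWs]
    exact hf1 m _
  have hsmall : ∀ m, ∃ p : L2, ∀ y ∈ (Ws (m + 1)).1, ‖J y - p‖ ≤ 1 / ((m : ℝ) + 1) := by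
    intro m
    rw [hWs]
    exact hf2 m _
  have hdist : ∀ m, ∀ y ∈ (Ws (m + 1)).1, ∀ y' ∈ (Ws (m + 1)).1,
      dist (J y) (J y') ≤ 2 * (1 / ((m : ℝ) + 1)) := by
    intro m y hy y' hy'
    obtain ⟨p, hp⟩ := hsmall m
    calc dist (J y) (J y') ≤ dist (J y) p + dist p (J y') := dist_triangle _ _ _
      _ = ‖J y - p‖ + ‖J y' - p‖ := by rw [dist_eq_norm, dist_comm p, dist_eq_norm]
      _ ≤ _ := by
        have := hp y hy
        have := hp y' hy'
        linarith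
  have hlim : Tendsto (fun m : ℕ => 2 * (1 / ((m : ℝ) + 1))) atTop (𝓝 0) := by
    have := (tendsto_one_div_add_atTop_nhds_zero_nat (𝕜 := ℝ)).const_mul 2
    simpa using this
  let S : ℕ → Set L2 := fun m => J '' (Ws (m + 1)).1
  have hSne : ∀ m, (S m).Nonempty := fun m => (Ws (m + 1)).2.2.image J
  have hSclosed : ∀ m, IsClosed (S m) := fun m => hJ.isClosedMap _ (Ws (m + 1)).2.1.1
  have hSdist : ∀ m, ∀ a ∈ S m, ∀ b ∈ S m, dist a b ≤ 2 * (1 / ((m : ℝ) + 1)) := by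
    rintro m _ ⟨y, hy, rfl⟩ _ ⟨y', hy', rfl⟩
    exact hdist m y hy y' hy'
  have hSanti : Antitone S := fun m n hmn => image_mono (hanti (Nat.succ_le_succ hmn))
  have hSbdd : ∀ m, Bornology.IsBounded (S m) := fun m =>
    Metric.isBounded_iff.2 ⟨_, fun a ha b hb => hSdist m a ha b hb⟩
  have hdiam : Tendsto (fun m => Metric.diam (S m)) atTop (𝓝 0) := by
    refine squeeze_zero (fun m => Metric.diam_nonneg) (fun m => ?_) hlim
    exact Metric.diam_le_of_forall_dist_le (by positivity) (hSdist m)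
  have hfin : ∀ N, (⋂ n ≤ N, S n).Nonempty := by
    intro N
    obtain ⟨a, ha⟩ := hSne N
    refine ⟨a, ?_⟩
    simp only [mem_iInter]
    intro n hn
    exact hSanti hn ha
  obtain ⟨a, ha⟩ := Metric.nonempty_iInter_of_nonempty_biInter hSclosed hSbdd hfin hdiam
  simp only [mem_iInter] at ha
  obtain ⟨z, hz, hza⟩ := ha 0
  have hzW : ∀ m, z ∈ (Ws (m + 1)).1 := by
    intro m
    obtain ⟨z', hz', hz'a⟩ := ha m
    have : z' = z := hJ.injective (by rw [hz'a, hza])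
    rw [← this]; exact hz'
  -- a small ball around `z`
  have hball : (Metric.ball z 1) ∈ 𝓝 z := Metric.ball_mem_nhds z one_pos
  rw [hJ.isInducing.nhds_eq_comap, mem_comap] at hball
  obtain ⟨t, ht, htb⟩ := hball
  obtain ⟨δ, hδ, hδt⟩ := Metric.mem_nhds_iff.1 ht
  obtain ⟨m, hm⟩ := (hlim.eventually_lt_const hδ).exists
  have hsub : (Ws (m + 1)).1 ⊆ Metric.ball z 1 := by
    intro y hy
    apply htb
    apply hδt
    rw [Metric.mem_ball]
    exact lt_of_le_of_lt (hdist m y hy z (hzW m)) hm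
  refine no_bounded_clopen (Ws (m + 1)).1 (Ws (m + 1)).2.1 (Ws (m + 1)).2.2 (‖(z : L2)‖ + 1) ?_
  intro x hx
  have h1 := hsub hx
  rw [Metric.mem_ball, Subtype.dist_eq, dist_eq_norm] at h1
  have h2 : ‖(x : L2)‖ ≤ ‖(x : L2) - z‖ + ‖(z : L2)‖ := by
    have := norm_add_le ((x : L2) - z) z
    simpa using this
  linarith

end Pool.Agent.T2H17
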